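import Mathlib
import Pool.Agent.H909Z.PSDefs
import Pool.Agent.H909Z.PS2

set_option autoImplicit false

namespace Pool.Agent.Results.MP_85dce0_gt.AForcedExample

open Pool.Agent.H909Z.Tk

/-- There is a forcing notion adding no countable sequences, all of whose conditions force that
a named space is a regular Lindelof P-space which is not discretely generated. -/
theorem result : ∃ (P : Type) (_ : Preorder P) (X I : Type) (S : X → Set P) (B : I → X → Set P),
    Nonempty P ∧ ∀ p : P, p ∈ NoNew P ∧ p ∈ PSpace S B ∧ p ∈ T3 S B ∧ p ∈ Lindelof S B ∧
      p ∈ NotDG S B :=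
  PS.main

end Pool.Agent.Results.MP_85dce0_gt.AForcedExample
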